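import Pool.Agent.N364.DC.AmtC

set_option autoImplicit false

/-! Project DC, part AMT: prime values with prescribed symbols of almost all families of binary forms. -/

namespace Pool.Agent.N364.DC

open Finset Filter Topology Pool.Agent.N718.DC

section

variable {m : ℕ} {e : Fin m → ℕ} {W M g₀ q' : ℕ} {y₀ : ℤ} {T : ℕ} {s : Fin m → ℤ}
    {g : Fin m → ℕ} {γ : (i : Fin m) → Fin (e i + 2) → ℤ} {H κ₁ : ℕ} {a₀ a₁ : ℤ} {α β : ℝ}

theorem phi_mem_RR (hγ : ∀ i j, |γ i j| ≤ H) {c : (i : Fin m) → Fin (e i + 2) → ℤ}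
    (hc : c ∈ BX e H) (h : ∀ i j, (M : ℤ) ∣ c i j - γ i j) :
    phi γ c ∈ RR e M γ H ∧ (∀ i j, (M : ℤ) ∣ phi γ c i j - γ i j) ∧
      ∀ i j, |phi γ c i j| ≤ H := by
  unfold BX at hc
  rw [Fintype.mem_piFinset] at hc
  refine ⟨?_, ?_, ?_⟩
  · unfold RR
    rw [Fintype.mem_piFinset]
    intro i
    rw [Fintype.mem_piFinset]
    intro j
    by_cases hj : (j : ℕ) < 2
    · simp [phi, hj]
    · simp only [phi, hj, if_false]
      rw [mem_filter]
      exact ⟨Fintype.mem_piFinset.1 (hc i) j, h i j⟩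
  · intro i j
    by_cases hj : (j : ℕ) < 2
    · simp [phi, hj]
    · simp only [phi, hj, if_false]
      exact h i j
  · intro i j
    by_cases hj : (j : ℕ) < 2
    · simp only [phi, hj, if_true]
      exact hγ i j
    · simp only [phi, hj, if_false]
      exact abs_le.2 (mem_Icc.1 (Fintype.mem_piFinset.1 (hc i) j))

theorem RR_prop (hγ : ∀ i j, |γ i j| ≤ H) {ρ : (i : Fin m) → Fin (e i + 2) → ℤ}
    (hρ : ρ ∈ RR e M γ H) :
    (∀ i j, (M : ℤ) ∣ ρ i j - γ i j) ∧ ∀ i j, |ρ i j| ≤ H := by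
  unfold RR at hρ
  rw [Fintype.mem_piFinset] at hρ
  have h : ∀ i j, ρ i j = γ i j ∨ (ρ i j ∈ Icc (-(H : ℤ)) H ∧ (M : ℤ) ∣ ρ i j - γ i j) := by
    intro i j
    have h1 := Fintype.mem_piFinset.1 (hρ i) j
    by_cases hj : (j : ℕ) < 2
    · left
      simpa [hj] using h1
    · right
      rw [if_neg hj, mem_filter] at h1
      exact h1
  constructor
  · intro i j
    rcases h i j with h1 | h1
    · rw [h1]
      simp
    · exact h1.2
  · intro i j
    rcases h i j with h1 | h1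
    · rw [h1]
      exact hγ i j
    · exact abs_le.2 (mem_Icc.1 h1.1)

/-- the families with a good rest -/
theorem good_le (P : Par e W M g₀ q' y₀ T s g γ H κ₁ a₀ a₁ α β) (ε : Fin m → Fin m → ℤ)
    (E κ : ℕ) (hE : ∀ i, e i ≤ E) (hκ : κ = 1 + κ₁ * (E + 1)) (C₁ : ℝ) (hC₁ : 0 ≤ C₁)
    (hF : ∀ D : Data m, D.Ok κ W H → ((Exc D ε).card : ℝ) ≤ C₁ / W * D.vol)
    (S : Finset ((i : Fin m) → Fin (e i + 2) → ℤ))
    (hS : ∀ c ∈ S, c ∈ BX e H ∧ Ctd e M a₀ a₁ α β γ g s ε c ∧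
      ∀ i, 1 ≤ e i → ¬ (q' : ℤ) ∣ c i (Fin.last (e i + 1))) :
    (S.card : ℝ) ≤ C₁ / W * (((2 * H + 1 : ℕ) : ℝ) / M + 1) ^ nc e := by
  classical
  have hW : (0 : ℝ) < W := by exact_mod_cast P.hW
  have hmap : ∀ c ∈ S, phi γ c ∈ RR e M γ H := fun c hc =>
    (phi_mem_RR P.lγ (hS c hc).1 (hS c hc).2.1.1).1
  set N : ℝ := ((2 * H + 1 : ℕ) : ℝ) / M + 1 with hN
  have hN0 : 0 ≤ N := by positivity
  have hfib : ∀ ρ ∈ RR e M γ H, ((S.filter (fun c => phi γ c = ρ)).card : ℝ) ≤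
      C₁ / W * ∏ _i : Fin m, N ^ 2 := by
    intro ρ hρ
    obtain ⟨hρ1, hρ2⟩ := RR_prop P.lγ hρ
    by_cases hgood : ∀ i, 1 ≤ e i → ¬ (q' : ℤ) ∣ ρ i (Fin.last (e i + 1))
    · have h1 := hF _ (dat_ok P E κ hE hκ hρ1 hρ2 hgood)
      have h2 := fiber_le P ε hρ1 S (fun c hc => ⟨(hS c hc).1, (hS c hc).2.1⟩)
      have h3 := vol_le P ρ
      calc ((S.filter (fun c => phi γ c = ρ)).card : ℝ) ≤
            ((Exc (dat e M g₀ q' y₀ T s g γ ρ H) ε).card : ℝ) := by exact_mod_cast h2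
        _ ≤ C₁ / W * (dat e M g₀ q' y₀ T s g γ ρ H).vol := h1
        _ ≤ C₁ / W * ∏ _i : Fin m, N ^ 2 := by
            gcongr
            exact h3.2
    · have hempty : S.filter (fun c => phi γ c = ρ) = ∅ := by
        apply filter_eq_empty_iff.2
        intro c hc hphi
        apply hgood
        intro i hi
        have h1 := (hS c hc).2.2 i hi
        rw [← hphi]
        have h2 : ¬ ((Fin.last (e i + 1) : Fin (e i + 2)) : ℕ) < 2 := by
          rw [Fin.val_last]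
          omega
        simp only [phi, h2, if_false]
        exact h1
      rw [hempty, card_empty, Nat.cast_zero]
      positivity
  have hsum : (S.card : ℝ) = ∑ ρ ∈ RR e M γ H, ((S.filter (fun c => phi γ c = ρ)).card : ℝ) := by
    rw [card_eq_sum_card_fiberwise (f := phi γ) (t := RR e M γ H) (fun c hc => mem_coe.2 (hmap c (mem_coe.1 hc)))]
    push_cast
    rfl
  rw [hsum]
  refine (sum_le_sum hfib).trans ?_
  rw [sum_const, nsmul_eq_mul]
  have h4 := card_RR P.hM γ H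
  rw [← hN] at h4
  calc ((RR e M γ H).card : ℝ) * (C₁ / W * ∏ _i : Fin m, N ^ 2) ≤
        (∏ i, N ^ e i) * (C₁ / W * ∏ _i : Fin m, N ^ 2) := by
        gcongr
    _ = C₁ / W * ((∏ i, N ^ e i) * ∏ _i : Fin m, N ^ 2) := by ring
    _ = C₁ / W * N ^ nc e := by
        rw [← prod_mul_distrib]
        congr 1
        unfold nc
        rw [← prod_pow_eq_pow_sum]
        exact prod_congr rfl fun i _ => (pow_add _ _ _).symm

theorem bad_one (hM : 1 ≤ M) (hq' : q'.Prime) (hqM : ¬ q' ∣ M)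
    (γ : (i : Fin m) → Fin (e i + 2) → ℤ) (H : ℕ) (i : Fin m) :
    ((Fintype.piFinset (fun i' => Fintype.piFinset (fun j : Fin (e i' + 2) =>
      if i' = i ∧ (j : ℕ) = e i' + 1 then
        (Icc (-(H : ℤ)) H).filter (fun n => (M : ℤ) ∣ n - γ i' j ∧ (q' : ℤ) ∣ n)
      else (Icc (-(H : ℤ)) H).filter (fun n => (M : ℤ) ∣ n - γ i' j)))).card : ℝ) ≤
      (((2 * H + 1 : ℕ) : ℝ) / M + 1) ^ nc e * (1 / q' + M / ((2 * H + 1 : ℕ) : ℝ)) := by
  have hMr : (0 : ℝ) < M := by exact_mod_cast hM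
  have hqr : (0 : ℝ) < q' := by exact_mod_cast hq'.pos
  have hHr : (0 : ℝ) < ((2 * H + 1 : ℕ) : ℝ) := by positivity
  set δ : ℝ := 1 / q' + M / ((2 * H + 1 : ℕ) : ℝ) with hδ
  have hδ0 : 0 ≤ δ := by positivity
  set N : ℝ := ((2 * H + 1 : ℕ) : ℝ) / M + 1 with hN
  have hN0 : 0 ≤ N := by positivity
  rw [Fintype.card_piFinset]
  push_cast
  have h1 : ∀ i' ∈ (univ : Finset (Fin m)), ((Fintype.piFinset (fun j : Fin (e i' + 2) =>
      if i' = i ∧ (j : ℕ) = e i' + 1 then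
        (Icc (-(H : ℤ)) H).filter (fun n => (M : ℤ) ∣ n - γ i' j ∧ (q' : ℤ) ∣ n)
      else (Icc (-(H : ℤ)) H).filter (fun n => (M : ℤ) ∣ n - γ i' j))).card : ℝ) ≤
      N ^ (e i' + 2) * (if i' = i then δ else 1) := by
    intro i' _
    rw [Fintype.card_piFinset]
    push_cast
    have h2 : ∀ j ∈ (univ : Finset (Fin (e i' + 2))), ((if i' = i ∧ (j : ℕ) = e i' + 1 then
        (Icc (-(H : ℤ)) H).filter (fun n => (M : ℤ) ∣ n - γ i' j ∧ (q' : ℤ) ∣ n)
      else (Icc (-(H : ℤ)) H).filter (fun n => (M : ℤ) ∣ n - γ i' j)).card : ℝ) ≤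
        N * (if i' = i ∧ (j : ℕ) = e i' + 1 then δ else 1) := by
      intro j _
      split_ifs
      · refine (cnt2 H M q' hM hq' hqM _).trans ?_
        have e1 : ((2 * H + 1 : ℕ) : ℝ) / (M * q') + 1 = ((2 * H + 1 : ℕ) : ℝ) / M * δ := by
          rw [hδ]
          field_simp
        rw [e1]
        gcongr
        rw [hN]
        linarith
      · rw [mul_one]
        exact cnt H M hM _
    refine (prod_le_prod (fun j _ => by positivity) h2).trans ?_
    rw [prod_mul_distrib, prod_const, card_univ, Fintype.card_fin]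
    apply le_of_eq
    congr 1
    by_cases hi : i' = i
    · subst hi
      simp only [true_and, if_true]
      rw [Fin.prod_univ_castSucc]
      have h3 : ∀ j : Fin (e i' + 1), (if ((Fin.castSucc j : Fin (e i' + 2)) : ℕ) = e i' + 1 then δ
          else (1 : ℝ)) = 1 := by
        intro j
        have := j.2
        rw [if_neg]
        rw [Fin.val_castSucc]
        omega
      rw [prod_congr rfl fun j _ => h3 j, prod_const_one, one_mul, if_pos (Fin.val_last _)]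
    · simp [hi]
  refine (prod_le_prod (fun i' _ => by positivity) h1).trans ?_
  rw [prod_mul_distrib]
  apply le_of_eq
  unfold nc
  rw [prod_pow_eq_pow_sum]
  congr 1
  simp

/-- the families with a bad rest -/
theorem bad_le (hM : 1 ≤ M) (hq' : q'.Prime) (hqM : ¬ q' ∣ M)
    (S : Finset ((i : Fin m) → Fin (e i + 2) → ℤ))
    (hS : ∀ c ∈ S, c ∈ BX e H ∧ (∀ i j, (M : ℤ) ∣ c i j - γ i j) ∧
      ∃ i, 1 ≤ e i ∧ (q' : ℤ) ∣ c i (Fin.last (e i + 1))) :
    (S.card : ℝ) ≤ m * ((((2 * H + 1 : ℕ) : ℝ) / M + 1) ^ nc e *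
      (1 / q' + M / ((2 * H + 1 : ℕ) : ℝ))) := by
  classical
  have h1 : S ⊆ (univ : Finset (Fin m)).biUnion fun i => Fintype.piFinset (fun i' =>
      Fintype.piFinset (fun j : Fin (e i' + 2) => if i' = i ∧ (j : ℕ) = e i' + 1 then
        (Icc (-(H : ℤ)) H).filter (fun n => (M : ℤ) ∣ n - γ i' j ∧ (q' : ℤ) ∣ n)
      else (Icc (-(H : ℤ)) H).filter (fun n => (M : ℤ) ∣ n - γ i' j))) := by
    intro c hc
    obtain ⟨h2, h3, i, hi, h4⟩ := hS c hc
    unfold BX at h2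
    rw [Fintype.mem_piFinset] at h2
    rw [mem_biUnion]
    refine ⟨i, mem_univ _, ?_⟩
    rw [Fintype.mem_piFinset]
    intro i'
    rw [Fintype.mem_piFinset]
    intro j
    have h5 := Fintype.mem_piFinset.1 (h2 i') j
    split_ifs with hj
    · rw [mem_filter]
      refine ⟨h5, h3 i' j, ?_⟩
      obtain ⟨rfl, hj2⟩ := hj
      have : j = Fin.last (e i' + 1) := Fin.ext (by rw [hj2, Fin.val_last])
      rw [this]
      exact h4
    · rw [mem_filter]
      exact ⟨h5, h3 i' j⟩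
  have h2 := (card_le_card h1).trans card_biUnion_le
  have h3 : (S.card : ℝ) ≤ ∑ i : Fin m, ((Fintype.piFinset (fun i' => Fintype.piFinset
      (fun j : Fin (e i' + 2) => if i' = i ∧ (j : ℕ) = e i' + 1 then
        (Icc (-(H : ℤ)) H).filter (fun n => (M : ℤ) ∣ n - γ i' j ∧ (q' : ℤ) ∣ n)
      else (Icc (-(H : ℤ)) H).filter (fun n => (M : ℤ) ∣ n - γ i' j)))).card : ℝ) := by
    exact_mod_cast h2
  refine h3.trans ?_
  refine (sum_le_sum fun i _ => bad_one hM hq' hqM γ H i).trans ?_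
  rw [sum_const, card_univ, Fintype.card_fin, nsmul_eq_mul]

end

theorem ev_lim (m n M W : ℕ) (hW : 1 ≤ W) :
    ∀ᶠ H : ℕ in atTop, (1 + (M : ℝ) / ((2 * H + 1 : ℕ) : ℝ)) ^ n ≤ 2 ∧
      2 * (m : ℝ) * (1 / Real.log H + M / ((2 * H + 1 : ℕ) : ℝ)) ≤ 1 / W := by
  have hW' : (0 : ℝ) < 1 / W := by
    have : (0 : ℝ) < W := by exact_mod_cast hW
    positivity
  have h1 : Tendsto (fun H : ℕ => (M : ℝ) / ((2 * H + 1 : ℕ) : ℝ)) atTop (𝓝 0) := by
    apply Tendsto.div_atTop tendsto_const_nhds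
    apply tendsto_natCast_atTop_atTop.comp
    exact tendsto_atTop_mono (fun H => show H ≤ 2 * H + 1 by omega) tendsto_id
  have h2 : Tendsto (fun H : ℕ => 1 / Real.log (H : ℝ)) atTop (𝓝 0) := by
    apply Tendsto.div_atTop tendsto_const_nhds
    exact Real.tendsto_log_atTop.comp tendsto_natCast_atTop_atTop
  have h3 : Tendsto (fun H : ℕ => (1 + (M : ℝ) / ((2 * H + 1 : ℕ) : ℝ)) ^ n) atTop (𝓝 1) := by
    have := (h1.const_add 1).pow n
    simpa using this
  have h4 : Tendsto (fun H : ℕ => 2 * (m : ℝ) *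
      (1 / Real.log H + M / ((2 * H + 1 : ℕ) : ℝ))) atTop (𝓝 0) := by
    have := (h2.add h1).const_mul (2 * (m : ℝ))
    simpa using this
  exact (h3.eventually_le_const (by norm_num)).and (h4.eventually_le_const hW')

theorem ev_par {m : ℕ} (e : Fin m → ℕ) (γ : (i : Fin m) → Fin (e i + 2) → ℤ) (E M : ℕ) :
    ∀ᶠ H : ℕ in atTop, (1 ≤ Real.log H ∧ (M : ℝ) ≤ Real.log H ∧ (E + 2 : ℝ) ≤ Real.log H) ∧
      (∀ i j, |γ i j| ≤ H) ∧ 2 * M ≤ H := by
  have hl : Tendsto (fun H : ℕ => Real.log (H : ℝ)) atTop atTop :=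
    Real.tendsto_log_atTop.comp tendsto_natCast_atTop_atTop
  refine ((hl.eventually_ge_atTop 1).and ((hl.eventually_ge_atTop _).and
    (hl.eventually_ge_atTop _))).and (Eventually.and ?_ (eventually_ge_atTop _))
  rw [eventually_all]
  intro i
  rw [eventually_all]
  intro j
  filter_upwards [eventually_ge_atTop (γ i j).natAbs] with H hH
  have : |γ i j| = ((γ i j).natAbs : ℤ) := (Int.natCast_natAbs _).symm
  rw [this]
  exact_mod_cast hH

theorem amt_ (h1 : S_FIX) (h2 : S_PTS) : S_AMT := by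
  intro m e
  obtain ⟨C₁, hC₁, h1⟩ := h1 m
  refine ⟨2 * C₁ + 1, by positivity, ?_⟩
  intro W M hW hM h2M hMW _ a₀ a₁ α β hab γ g s ε hs hε hg hn
  obtain ⟨κ₁, H₁, hpts⟩ := h2 M a₀ a₁ α β (2 * m + 3) hM hab
  obtain ⟨E, hE⟩ : ∃ E : ℕ, ∀ i, e i ≤ E :=
    ⟨∑ i, e i, fun i => single_le_sum (f := e) (fun j _ => Nat.zero_le _) (mem_univ i)⟩
  obtain ⟨κ, hκ⟩ : ∃ κ : ℕ, κ = 1 + κ₁ * (E + 1) := ⟨_, rfl⟩
  obtain ⟨H₂, hfix⟩ := h1 κ W
  have hev := (ev_lim m (nc e) M W hW).and ((ev_par e γ E M).and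
    ((eventually_ge_atTop H₁).and (eventually_ge_atTop H₂)))
  obtain ⟨H₀, hH₀⟩ := eventually_atTop.1 hev
  refine ⟨H₀, fun H hH => ?_⟩
  obtain ⟨⟨hl1, hl2⟩, ⟨⟨l1, lM, lE⟩, lγ, lH⟩, hH1, hH2⟩ := hH₀ H hH
  obtain ⟨g₀, q', y₀, T, hg₀, hq', hqM, hx, hy₀, hab', hT, hqT, hq, hT', hy⟩ := hpts H hH1
  have P : Par e W M g₀ q' y₀ T s g γ H κ₁ a₀ a₁ α β :=
    { hW := hW
      hM := hM
      h2 := h2M
      hMW := hMW
      hs := hs
      hg := hg
      hn := hn
      hg₀ := hg₀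
      hq' := hq'
      hqM := hqM
      hx := hx
      hy₀ := hy₀
      hab := hab'
      hT := hT
      hqT := hqT
      hq := hq
      hT' := hT'
      hy := hy
      l1 := l1
      lM := lM
      lE := fun i => le_trans (by
        have : (e i : ℝ) ≤ E := by exact_mod_cast hE i
        linarith) lE
      lγ := lγ
      lH := lH }
  classical
  set S : Finset ((i : Fin m) → Fin (e i + 2) → ℤ) :=
    (BX e H).filter (fun c => Ctd e M a₀ a₁ α β γ g s ε c) with hSdef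
  have hgoal : (S.card : ℝ) ≤ (2 * C₁ + 1) / W * (((2 * H + 1 : ℕ) : ℝ) / M) ^ nc e := by
    have hsplit : S.card = (S.filter fun c => ∃ i, 1 ≤ e i ∧ (q' : ℤ) ∣ c i (Fin.last (e i + 1))).card +
        (S.filter fun c => ¬ ∃ i, 1 ≤ e i ∧ (q' : ℤ) ∣ c i (Fin.last (e i + 1))).card :=
      (card_filter_add_card_filter_not _).symm
    have hb := bad_le (e := e) (H := H) (γ := γ) hM hq' hqM
      (S.filter fun c => ∃ i, 1 ≤ e i ∧ (q' : ℤ) ∣ c i (Fin.last (e i + 1))) (by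
        intro c hc
        have h3 := mem_filter.1 hc
        have h4 := mem_filter.1 h3.1
        exact ⟨h4.1, h4.2.1, h3.2⟩)
    have hgd := good_le P ε E κ hE hκ C₁ hC₁ (fun D hD => by
        have := hfix H hH2 D hD ε hε
        unfold Exc
        convert this)
      (S.filter fun c => ¬ ∃ i, 1 ≤ e i ∧ (q' : ℤ) ∣ c i (Fin.last (e i + 1))) (by
        intro c hc
        have h3 := mem_filter.1 hc
        have h4 := mem_filter.1 h3.1
        refine ⟨h4.1, h4.2, fun i hi hd => h3.2 ⟨i, hi, hd⟩⟩)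
    have hMr : (0 : ℝ) < M := by exact_mod_cast hM
    have hWr : (0 : ℝ) < W := by exact_mod_cast hW
    have hHr : (0 : ℝ) < ((2 * H + 1 : ℕ) : ℝ) := by positivity
    set X : ℝ := ((2 * H + 1 : ℕ) : ℝ) / M with hX
    have hX0 : 0 < X := by positivity
    have hN : (X + 1) ^ nc e ≤ 2 * X ^ nc e := by
      have e1 : X + 1 = X * (1 + (M : ℝ) / ((2 * H + 1 : ℕ) : ℝ)) := by
        rw [hX]
        field_simp
      rw [e1, mul_pow, mul_comm]
      gcongr
    have hδ : 2 * (m : ℝ) * (1 / q' + M / ((2 * H + 1 : ℕ) : ℝ)) ≤ 1 / W := by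
      refine le_trans ?_ hl2
      have h5 : Real.log H ≤ q' := by
        calc Real.log H = Real.log H ^ 1 := (pow_one _).symm
          _ ≤ Real.log H ^ (2 * m + 3) := pow_le_pow_right₀ l1 (by omega)
          _ ≤ q' := hqT
      have h6 : (1 : ℝ) / q' ≤ 1 / Real.log H :=
        one_div_le_one_div_of_le (zero_lt_one.trans_le l1) h5
      gcongr
    have hsum : (S.card : ℝ) = ((S.filter fun c => ∃ i, 1 ≤ e i ∧
        (q' : ℤ) ∣ c i (Fin.last (e i + 1))).card : ℝ) +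
        ((S.filter fun c => ¬ ∃ i, 1 ≤ e i ∧ (q' : ℤ) ∣ c i (Fin.last (e i + 1))).card : ℝ) := by
      exact_mod_cast hsplit
    rw [hsum]
    set δ : ℝ := 1 / q' + M / ((2 * H + 1 : ℕ) : ℝ) with hδd
    have hXn : 0 ≤ X ^ nc e := by positivity
    have hδ0 : 0 ≤ δ := by positivity
    have h7 : (m : ℝ) * ((X + 1) ^ nc e * δ) ≤ 1 / W * X ^ nc e := by
      calc (m : ℝ) * ((X + 1) ^ nc e * δ) ≤ (m : ℝ) * (2 * X ^ nc e * δ) := by gcongr
        _ = (2 * m * δ) * X ^ nc e := by ring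
        _ ≤ 1 / W * X ^ nc e := by gcongr
    have h8 : C₁ / W * (X + 1) ^ nc e ≤ C₁ / W * (2 * X ^ nc e) := by gcongr
    calc _ ≤ 1 / W * X ^ nc e + C₁ / W * (2 * X ^ nc e) :=
          add_le_add (hb.trans h7) (hgd.trans h8)
      _ = (2 * C₁ + 1) / W * X ^ nc e := by ring
  rw [hSdef] at hgoal
  convert hgoal
  exact Iff.rfl

end Pool.Agent.N364.DC
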