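import Pool.Agent.N718.DC.Stm

set_option autoImplicit false

/-! Project DC, part AMT: binary forms and counting in progressions. -/

namespace Pool.Agent.N364.DC

open Finset Pool.Agent.N718.DC

/-! ### forms -/

theorem fm_split {R : Type} [CommRing R] {e : ℕ} (c ρ : Fin (e + 2) → R) (M b0 b1 x y : R)
    (h0 : c 0 = ρ 0 + M * b0) (h1 : c 1 = ρ 1 + M * b1)
    (h2 : ∀ j : Fin (e + 2), 2 ≤ (j : ℕ) → c j = ρ j) :
    fm c x y = fm ρ x y + M * x ^ e * (x * b0 + y * b1) := by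
  unfold fm
  rw [Fin.sum_univ_succ, Fin.sum_univ_succ, Fin.sum_univ_succ (n := e + 1), Fin.sum_univ_succ]
  have h3 : ∀ j : Fin e, c j.succ.succ = ρ j.succ.succ := fun j => h2 _ (by simp)
  have h4 : (Fin.succ (0 : Fin (e + 1)) : Fin (e + 2)) = 1 := rfl
  simp only [h3, h4, h0, h1]
  simp
  ring

theorem fm_cong {e : ℕ} (M : ℕ) (c γ : Fin (e + 2) → ℤ) (x y a b : ℤ)
    (h : ∀ j, (M : ℤ) ∣ c j - γ j) (hx : (M : ℤ) ∣ x - a) (hy : (M : ℤ) ∣ y - b) :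
    (M : ℤ) ∣ fm c x y - fm γ a b := by
  unfold fm
  rw [← Finset.sum_sub_distrib]
  refine Finset.dvd_sum fun j _ => ?_
  have h1 : γ j ≡ c j [ZMOD M] := Int.modEq_iff_dvd.2 (h j)
  have h2 : a ≡ x [ZMOD M] := Int.modEq_iff_dvd.2 hx
  have h3 : b ≡ y [ZMOD M] := Int.modEq_iff_dvd.2 hy
  exact Int.modEq_iff_dvd.1 ((h1.mul (h2.pow _)).mul (h3.pow _))

theorem fm_last {e : ℕ} (p : ℤ) (ρ : Fin (e + 2) → ℤ) (x y : ℤ) (hx : p ∣ x) :
    p ∣ fm ρ x y - ρ (Fin.last (e + 1)) * y ^ (e + 1) := by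
  unfold fm
  rw [Fin.sum_univ_castSucc]
  have h1 : ρ (Fin.last (e + 1)) * x ^ (e + 1 - ((Fin.last (e + 1) : Fin (e + 2)) : ℕ)) *
      y ^ ((Fin.last (e + 1) : Fin (e + 2)) : ℕ) = ρ (Fin.last (e + 1)) * y ^ (e + 1) := by
    simp
  rw [h1, add_sub_cancel_right]
  refine Finset.dvd_sum fun j _ => ?_
  have h2 : p ∣ x ^ (e + 1 - ((Fin.castSucc j : Fin (e + 2)) : ℕ)) := by
    apply dvd_pow hx
    have := j.2
    simp
    omega
  exact (h2.mul_left _).mul_right _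

theorem fm_abs {e : ℕ} (ρ : Fin (e + 2) → ℤ) (x y : ℤ) (H K : ℝ) (hK : 0 ≤ K) (hH : 0 ≤ H)
    (h : ∀ j, |(ρ j : ℝ)| ≤ H) (hx : |(x : ℝ)| ≤ K) (hy : |(y : ℝ)| ≤ K) :
    |((fm ρ x y : ℤ) : ℝ)| ≤ (e + 2) * (H * K ^ (e + 1)) := by
  unfold fm
  push_cast
  refine (Finset.abs_sum_le_sum_abs _ _).trans ?_
  have h1 : ∀ j ∈ (univ : Finset (Fin (e + 2))),
      |(ρ j : ℝ) * (x : ℝ) ^ (e + 1 - (j : ℕ)) * (y : ℝ) ^ (j : ℕ)| ≤ H * K ^ (e + 1) := by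
    intro j _
    have hj := j.2
    rw [abs_mul, abs_mul, abs_pow, abs_pow]
    have h2 : K ^ (e + 1) = K ^ (e + 1 - (j : ℕ)) * K ^ (j : ℕ) := by
      rw [← pow_add]
      congr 1
      omega
    rw [h2, ← mul_assoc]
    gcongr
    exact h j
  refine (Finset.sum_le_sum h1).trans ?_
  rw [Finset.sum_const, Finset.card_univ, Fintype.card_fin, nsmul_eq_mul]
  push_cast
  exact le_rfl

theorem fm_scale {e : ℕ} (c : Fin (e + 2) → ℝ) (x y : ℝ) (hx : x ≠ 0) :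
    fm c x y = x ^ (e + 1) * fm c 1 (y / x) := by
  unfold fm
  rw [Finset.mul_sum]
  refine Finset.sum_congr rfl fun j _ => ?_
  have hj := j.2
  have h2 : x ^ (e + 1) = x ^ (e + 1 - (j : ℕ)) * x ^ (j : ℕ) := by
    rw [← pow_add]
    congr 1
    omega
  rw [h2, one_pow, div_pow]
  field_simp

theorem fm_cast {e : ℕ} (c : Fin (e + 2) → ℤ) (x y : ℤ) :
    ((fm c x y : ℤ) : ℝ) = fmv c (x : ℝ) (y : ℝ) := by
  unfold fmv fm
  push_cast
  rfl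

/-! ### arithmetic -/

theorem coprime_of (a b : ℤ) (h : ∀ p : ℕ, p.Prime → (p : ℤ) ∣ a → (p : ℤ) ∣ b → False) :
    IsCoprime a b := by
  rw [Int.isCoprime_iff_gcd_eq_one]
  by_contra hne
  obtain ⟨p, hp, hd⟩ := Nat.exists_prime_and_dvd hne
  exact h p hp ((Int.natCast_dvd_natCast.2 hd).trans (Int.gcd_dvd_left _ _))
    ((Int.natCast_dvd_natCast.2 hd).trans (Int.gcd_dvd_right _ _))

/-- the rest `F / g` -/
theorem r_eq (M g : ℕ) (hM : 1 ≤ M) (hg : g ∣ M) (F n : ℤ) (h : (M : ℤ) ∣ F - g * n) :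
    (g : ℤ) * (F / g) = F ∧ ((M / g : ℕ) : ℤ) ∣ F / g - n := by
  have hg0 : 0 < g := Nat.pos_of_dvd_of_pos hg hM
  have hg1 : (g : ℤ) ≠ 0 := by exact_mod_cast hg0.ne'
  obtain ⟨k, hk⟩ := h
  have hMg : (M : ℤ) = g * ((M / g : ℕ) : ℤ) := by
    exact_mod_cast (Nat.mul_div_cancel' hg).symm
  have hF : F = g * (n + ((M / g : ℕ) : ℤ) * k) := by
    rw [hMg] at hk
    linear_combination hk
  have h2 : F / g = n + ((M / g : ℕ) : ℤ) * k := by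
    rw [hF, Int.mul_ediv_cancel_left _ hg1]
  exact ⟨by rw [h2]; exact hF.symm, ⟨k, by rw [h2]; ring⟩⟩

/-! ### counting -/

theorem cnt (H r : ℕ) (hr : 0 < r) (v : ℤ) :
    (((Icc (-(H : ℤ)) H).filter (fun n => (r : ℤ) ∣ n - v)).card : ℝ) ≤
      ((2 * H + 1 : ℕ) : ℝ) / r + 1 := by
  have h1 : (Icc (-(H : ℤ)) H) = Ico (-(H : ℤ)) (H + 1) := by
    ext
    simp
  have h2 : (Ico (-(H : ℤ)) (H + 1)).filter (fun n => (r : ℤ) ∣ n - v) =
      (Ico (-(H : ℤ)) (H + 1)).filter (fun n => n ≡ v [ZMOD r]) := by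
    apply filter_congr
    intro n _
    rw [Int.modEq_comm, Int.modEq_iff_dvd]
  rw [h1, h2]
  have h3 := Int.Ico_filter_modEq_card (-(H : ℤ)) (H + 1) (r := (r : ℤ)) (by exact_mod_cast hr) v
  have h4 : (((Ico (-(H : ℤ)) (H + 1)).filter (fun n => n ≡ v [ZMOD r])).card : ℚ) ≤
      ((2 * H + 1 : ℕ) : ℚ) / r + 1 := by
    have h5 : (((Ico (-(H : ℤ)) (H + 1)).filter (fun n => n ≡ v [ZMOD r])).card : ℚ) =
        (((((Ico (-(H : ℤ)) (H + 1)).filter (fun n => n ≡ v [ZMOD r])).card : ℤ)) : ℚ) := by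
      push_cast
      rfl
    rw [h5, h3]
    have hr' : (0 : ℚ) < r := by exact_mod_cast hr
    push_cast
    refine max_le ?_ (by positivity)
    have h6 := Int.ceil_lt_add_one (((H : ℚ) + 1 - v) / r)
    have h7 := Int.le_ceil ((-(H : ℚ) - v) / r)
    have h8 : ((H : ℚ) + 1 - v) / r - (-(H : ℚ) - v) / r = (2 * H + 1) / r := by
      field_simp
      ring
    linarith
  have h9 : ((((2 * H + 1 : ℕ) : ℚ) / r + 1 : ℚ) : ℝ) = ((2 * H + 1 : ℕ) : ℝ) / r + 1 := by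
    push_cast
    rfl
  rw [← h9]
  exact_mod_cast h4

/-- a congruence and a divisibility -/
theorem cnt2 (H M q : ℕ) (hM : 0 < M) (hq : q.Prime) (hqM : ¬ q ∣ M) (v : ℤ) :
    (((Icc (-(H : ℤ)) H).filter (fun n => (M : ℤ) ∣ n - v ∧ (q : ℤ) ∣ n)).card : ℝ) ≤
      ((2 * H + 1 : ℕ) : ℝ) / (M * q) + 1 := by
  rcases ((Icc (-(H : ℤ)) H).filter (fun n => (M : ℤ) ∣ n - v ∧ (q : ℤ) ∣ n)).eq_empty_or_nonempty
    with h | ⟨n0, h⟩
  · rw [h]
    simp only [card_empty, Nat.cast_zero]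
    positivity
  · have h1 := cnt H (M * q) (Nat.mul_pos hM hq.pos) n0
    push_cast at h1 ⊢
    refine le_trans ?_ h1
    have h2 : (Icc (-(H : ℤ)) H).filter (fun n => (M : ℤ) ∣ n - v ∧ (q : ℤ) ∣ n) ⊆
        (Icc (-(H : ℤ)) H).filter (fun n => (M : ℤ) * (q : ℤ) ∣ n - n0) := by
      intro n hn
      rw [mem_filter] at hn h ⊢
      refine ⟨hn.1, ?_⟩
      have hc : IsCoprime (M : ℤ) (q : ℤ) :=
        Nat.isCoprime_iff_coprime.2 ((Nat.Prime.coprime_iff_not_dvd hq).2 hqM).symm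
      refine hc.mul_dvd ?_ (dvd_sub hn.2.2 h.2.2)
      have h3 := dvd_sub hn.2.1 h.2.1
      simpa using h3
    exact_mod_cast card_le_card h2

end Pool.Agent.N364.DC
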