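import Pool.Agent.N364.DC.AmtA

set_option autoImplicit false

/-! Project DC, part AMT: the data of the one-dimensional family. -/

namespace Pool.Agent.N364.DC

open Finset Pool.Agent.N718.DC

/-- the data of a family of forms whose first two coefficients vary -/
def dat {m : ℕ} (e : Fin m → ℕ) (M g₀ q' : ℕ) (y₀ : ℤ) (T : ℕ) (s : Fin m → ℤ) (g : Fin m → ℕ)
    (γ ρ : (i : Fin m) → Fin (e i + 2) → ℤ) (H : ℕ) : Data m where
  M := M
  g := g₀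
  q' := q'
  y₀ := y₀
  T := T
  s := s
  L := fun i => M / g i * (g₀ * q') ^ e i
  r := fun i t => fm (ρ i) ((g₀ * q' : ℕ) : ℤ) (y₀ + M * t) / g i
  u := fun i => (-(((H : ℤ) + γ i 0) / M), -(((H : ℤ) + γ i 1) / M))
  v := fun i => (((H : ℤ) - γ i 0) / M, ((H : ℤ) - γ i 1) / M)

/-- the conditions on the parameters -/
structure Par {m : ℕ} (e : Fin m → ℕ) (W M g₀ q' : ℕ) (y₀ : ℤ) (T : ℕ) (s : Fin m → ℤ)
    (g : Fin m → ℕ) (γ : (i : Fin m) → Fin (e i + 2) → ℤ) (H κ₁ : ℕ) (a₀ a₁ : ℤ) (α β : ℝ) :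
    Prop where
  hW : 1 ≤ W
  hM : 1 ≤ M
  h2 : 2 ∣ M
  hMW : ∀ p : ℕ, p.Prime → p ≤ W → p ∣ M
  hs : ∀ i, s i = 1 ∨ s i = -1
  hg : ∀ i, g i ∣ M ∧ ∀ p : ℕ, p.Prime → p ∣ M → p ∣ M / g i
  hn : ∀ i, ∃ n : ℤ, fm (γ i) a₀ a₁ = g i * n ∧ IsCoprime n (M : ℤ)
  hg₀ : g₀ ∣ M
  hq' : q'.Prime
  hqM : ¬ q' ∣ M
  hx : (M : ℤ) ∣ ((g₀ * q' : ℕ) : ℤ) - a₀
  hy₀ : (M : ℤ) ∣ y₀ - a₁
  hab : ∀ t < T, α * ((g₀ * q' : ℕ) : ℝ) < (y₀ + M * t : ℤ) ∧
    ((y₀ + M * t : ℤ) : ℝ) < β * ((g₀ * q' : ℕ) : ℝ)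
  hT : Real.log H ^ (2 * m + 3) ≤ T
  hqT : Real.log H ^ (2 * m + 3) ≤ q'
  hq : ((g₀ * q' : ℕ) : ℝ) ≤ Real.log H ^ κ₁
  hT' : (T : ℝ) ≤ Real.log H ^ κ₁
  hy : ∀ t < T, |((y₀ + M * t : ℤ) : ℝ)| ≤ Real.log H ^ κ₁
  l1 : 1 ≤ Real.log H
  lM : (M : ℝ) ≤ Real.log H
  lE : ∀ i, (e i + 2 : ℝ) ≤ Real.log H
  lγ : ∀ i j, |γ i j| ≤ H
  lH : 2 * M ≤ H

theorem box_len (H M : ℕ) (hM : 1 ≤ M) (c : ℤ) :
    ((2 * H : ℕ) : ℝ) / M - 2 ≤ ((((H : ℤ) - c) / M : ℤ) : ℝ) - ((-(((H : ℤ) + c) / M) : ℤ) : ℝ) ∧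
    ((((H : ℤ) - c) / M : ℤ) : ℝ) - ((-(((H : ℤ) + c) / M) : ℤ) : ℝ) ≤ ((2 * H : ℕ) : ℝ) / M := by
  have hM' : (0 : ℤ) < M := by exact_mod_cast hM
  have hMr : (0 : ℝ) < M := by exact_mod_cast hM
  have h1 := Int.mul_ediv_self_le (x := (H : ℤ) - c) (k := M) hM'.ne'
  have h2 := Int.mul_ediv_self_le (x := (H : ℤ) + c) (k := M) hM'.ne'
  have h3 := Int.lt_mul_ediv_self_add (x := (H : ℤ) - c) (k := M) hM'
  have h4 := Int.lt_mul_ediv_self_add (x := (H : ℤ) + c) (k := M) hM'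
  generalize ((H : ℤ) - c) / M = A at h1 h3 ⊢
  generalize ((H : ℤ) + c) / M = B at h2 h4 ⊢
  have h1' : (M : ℝ) * A ≤ H - c := by exact_mod_cast h1
  have h2' : (M : ℝ) * B ≤ H + c := by exact_mod_cast h2
  have h3' : (H : ℝ) - c < M * A + M := by exact_mod_cast h3
  have h4' : (H : ℝ) + c < M * B + M := by exact_mod_cast h4
  push_cast
  constructor
  · rw [sub_le_iff_le_add, div_le_iff₀ hMr]
    nlinarith
  · rw [le_div_iff₀ hMr]
    nlinarith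

theorem in_lem (H M : ℕ) (h2 : 2 ∣ M) (hM : 1 ≤ M) (c : ℤ) (hc : |c| ≤ H) :
    -(H : ℤ) ≤ -(((H : ℤ) + c) / M) ∧ -(((H : ℤ) + c) / M) ≤ ((H : ℤ) - c) / M + 1 ∧
      ((H : ℤ) - c) / M ≤ H := by
  have hM' : (0 : ℤ) < M := by exact_mod_cast hM
  have hM2 : (2 : ℤ) ≤ M := by exact_mod_cast Nat.le_of_dvd hM h2
  have hc' := abs_le.1 hc
  have h1 := Int.mul_ediv_self_le (x := (H : ℤ) - c) (k := M) hM'.ne'
  have h2 := Int.mul_ediv_self_le (x := (H : ℤ) + c) (k := M) hM'.ne'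
  have h3 : (0 : ℤ) ≤ ((H : ℤ) - c) / M := Int.ediv_nonneg (by linarith) hM'.le
  have h4 : (0 : ℤ) ≤ ((H : ℤ) + c) / M := Int.ediv_nonneg (by linarith) hM'.le
  refine ⟨?_, by linarith, ?_⟩
  · nlinarith
  · nlinarith

section

variable {m : ℕ} {e : Fin m → ℕ} {W M g₀ q' : ℕ} {y₀ : ℤ} {T : ℕ} {s : Fin m → ℤ}
    {g : Fin m → ℕ} {γ : (i : Fin m) → Fin (e i + 2) → ℤ} {H κ₁ : ℕ} {a₀ a₁ : ℤ} {α β : ℝ}

theorem r_dat (P : Par e W M g₀ q' y₀ T s g γ H κ₁ a₀ a₁ α β)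
    {ρ : (i : Fin m) → Fin (e i + 2) → ℤ} (hρ : ∀ i j, (M : ℤ) ∣ ρ i j - γ i j) (i : Fin m)
    (t : ℕ) :
    (g i : ℤ) * (dat e M g₀ q' y₀ T s g γ ρ H).r i t =
        fm (ρ i) ((g₀ * q' : ℕ) : ℤ) (y₀ + M * t) ∧
      ∀ p : ℕ, p.Prime → p ∣ M → ¬ (p : ℤ) ∣ (dat e M g₀ q' y₀ T s g γ ρ H).r i t := by
  obtain ⟨n, hn1, hn2⟩ := P.hn i
  have hy1 : (M : ℤ) ∣ y₀ + M * t - a₁ := by
    have h := dvd_add P.hy₀ (dvd_mul_right (M : ℤ) t)
    have e1 : y₀ + M * t - a₁ = y₀ - a₁ + M * t := by ring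
    rw [e1]
    exact h
  have h1 := fm_cong M (ρ i) (γ i) _ _ _ _ (hρ i) P.hx hy1
  rw [hn1] at h1
  obtain ⟨h2, h3⟩ := r_eq M (g i) P.hM (P.hg i).1 _ n h1
  refine ⟨h2, fun p hp hpM hpr => ?_⟩
  have h4 : (p : ℤ) ∣ ((M / g i : ℕ) : ℤ) := Int.natCast_dvd_natCast.2 ((P.hg i).2 p hp hpM)
  have h5 : (p : ℤ) ∣ n := by
    have h6 := dvd_sub hpr (h4.trans h3)
    have e1 : (dat e M g₀ q' y₀ T s g γ ρ H).r i t -
        (fm (ρ i) ((g₀ * q' : ℕ) : ℤ) (y₀ + M * t) / (g i : ℤ) - n) = n := by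
      show fm (ρ i) ((g₀ * q' : ℕ) : ℤ) (y₀ + M * t) / (g i : ℤ) - _ = n
      ring
    rw [e1] at h6
    exact h6
  have h7 : IsUnit (p : ℤ) := hn2.isUnit_of_dvd' h5 (Int.natCast_dvd_natCast.2 hpM)
  exact (Nat.prime_iff_prime_int.1 hp).not_isUnit h7

theorem gval (P : Par e W M g₀ q' y₀ T s g γ H κ₁ a₀ a₁ α β)
    {ρ : (i : Fin m) → Fin (e i + 2) → ℤ} (hρ : ∀ i j, (M : ℤ) ∣ ρ i j - γ i j) (i : Fin m)
    (t : ℕ) (b : ℤ × ℤ) (c : Fin (e i + 2) → ℤ) (h0 : c 0 = ρ i 0 + M * b.1)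
    (h1 : c 1 = ρ i 1 + M * b.2) (h2 : ∀ j : Fin (e i + 2), 2 ≤ (j : ℕ) → c j = ρ i j) :
    (g i : ℤ) * (dat e M g₀ q' y₀ T s g γ ρ H).val i t b =
      s i * fm c ((g₀ * q' : ℕ) : ℤ) (y₀ + M * t) := by
  have h3 := (r_dat (H := H) P hρ i t).1
  have h4 := fm_split c (ρ i) (M : ℤ) b.1 b.2 ((g₀ * q' : ℕ) : ℤ) (y₀ + M * t) h0 h1 h2
  rw [h4, ← h3]
  have hMg : (M : ℤ) = g i * ((M / g i : ℕ) : ℤ) := by
    exact_mod_cast (Nat.mul_div_cancel' (P.hg i).1).symm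
  show (g i : ℤ) * (s i * ((((M / g i * (g₀ * q') ^ e i : ℕ) : ℤ)) *
    ((((g₀ * q' : ℕ) : ℤ)) * b.1 + (y₀ + M * t) * b.2) +
      (dat e M g₀ q' y₀ T s g γ ρ H).r i t)) = _
  push_cast
  push_cast at hMg
  linear_combination (-(s i : ℤ) * ((g₀ : ℤ) * q') ^ e i * ((g₀ : ℤ) * q' * b.1 + (y₀ + M * t) * b.2)) * hMg

theorem dat_ok (P : Par e W M g₀ q' y₀ T s g γ H κ₁ a₀ a₁ α β) (E κ : ℕ) (hE : ∀ i, e i ≤ E)
    (hκ : κ = 1 + κ₁ * (E + 1)) {ρ : (i : Fin m) → Fin (e i + 2) → ℤ}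
    (hρ : ∀ i j, (M : ℤ) ∣ ρ i j - γ i j) (hρH : ∀ i j, |ρ i j| ≤ H)
    (hgood : ∀ i, 1 ≤ e i → ¬ (q' : ℤ) ∣ ρ i (Fin.last (e i + 1))) :
    (dat e M g₀ q' y₀ T s g γ ρ H).Ok κ W H := by
  have l1 := P.l1
  have l0 : 0 ≤ Real.log H := zero_le_one.trans l1
  have hmono : ∀ {a b : ℕ}, a ≤ b → Real.log H ^ a ≤ Real.log H ^ b := fun h =>
    pow_le_pow_right₀ l1 h
  have hκ1 : κ₁ ≤ κ := by
    rw [hκ]
    nlinarith [Nat.zero_le (κ₁ * E)]
  have hq0 : 1 ≤ g₀ * q' :=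
    Nat.mul_pos (Nat.pos_of_dvd_of_pos P.hg₀ P.hM) P.hq'.pos
  have hgpos : ∀ i, 1 ≤ g i := fun i => Nat.pos_of_dvd_of_pos (P.hg i).1 P.hM
  have hMg : ∀ i, 1 ≤ M / g i := fun i =>
    Nat.div_pos (Nat.le_of_dvd P.hM (P.hg i).1) (hgpos i)
  have hkap : ∀ i, 1 + κ₁ * (e i + 1) ≤ κ := by
    intro i
    rw [hκ]
    have := hE i
    gcongr
  refine
    { hW := P.hW
      hM := P.hM
      h2 := P.h2
      hMW := P.hMW
      hM' := ?_
      hg := P.hg₀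
      hq' := P.hq'
      hqM := P.hqM
      hqW := ?_
      hq := P.hq.trans (hmono hκ1)
      hT := P.hT
      hT' := P.hT'.trans (hmono hκ1)
      hqT := (hmono (by omega)).trans P.hqT
      hy := fun t ht => (P.hy t ht).trans (hmono hκ1)
      hs := P.hs
      hL := fun i => Nat.mul_pos (hMg i) (pow_pos hq0 _)
      hL' := ?_
      hr := ?_
      hLM := fun i p hp hpM => ((P.hg i).2 p hp hpM).mul_right _
      hLq := ?_
      co := ?_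
      hbox := ?_
      hu := ?_ }
  · calc (M : ℝ) ≤ Real.log H ^ 1 := by rw [pow_one]; exact P.lM
      _ ≤ Real.log H ^ κ := hmono (by omega)
  · by_contra hlt
    exact P.hqM (P.hMW q' P.hq' (not_le.1 hlt).le)
  · intro i
    show (((M / g i * (g₀ * q') ^ e i : ℕ)) : ℝ) ≤ Real.log H ^ κ
    have h1 : (((M / g i : ℕ)) : ℝ) ≤ Real.log H :=
      le_trans (by exact_mod_cast Nat.div_le_self _ _) P.lM
    calc (((M / g i * (g₀ * q') ^ e i : ℕ)) : ℝ) = ((M / g i : ℕ) : ℝ) * ((g₀ * q' : ℕ) : ℝ) ^ e i := by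
          push_cast
          ring
      _ ≤ Real.log H * (Real.log H ^ κ₁) ^ e i := by
          gcongr
          exact P.hq
      _ = Real.log H ^ (1 + κ₁ * e i) := by rw [← pow_mul, pow_add, pow_one]
      _ ≤ Real.log H ^ κ := hmono (le_trans (by nlinarith) (hkap i))
  · intro i t ht
    have h1 := (r_dat (H := H) P hρ i t).1
    have h2 := fm_abs (ρ i) ((g₀ * q' : ℕ) : ℤ) (y₀ + M * t) (H : ℝ) (Real.log H ^ κ₁) (by positivity)
      (by positivity) (fun j => by exact_mod_cast hρH i j) (by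
        have := P.hq
        rw [Int.cast_natCast, abs_of_nonneg (by positivity)]
        exact this) (by exact_mod_cast P.hy t ht)
    rw [← h1] at h2
    have hg1 : (1 : ℝ) ≤ (g i : ℝ) := by exact_mod_cast hgpos i
    have h3 : |(((dat e M g₀ q' y₀ T s g γ ρ H).r i t : ℤ) : ℝ)| ≤
        |(((g i : ℤ) * (dat e M g₀ q' y₀ T s g γ ρ H).r i t : ℤ) : ℝ)| := by
      rw [Int.cast_mul, abs_mul, Int.cast_natCast, abs_of_nonneg (zero_le_one.trans hg1)]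
      exact le_mul_of_one_le_left (abs_nonneg _) hg1
    refine h3.trans (h2.trans ?_)
    calc ((e i : ℝ) + 2) * ((H : ℝ) * (Real.log H ^ κ₁) ^ (e i + 1)) ≤
          Real.log H * ((H : ℝ) * (Real.log H ^ κ₁) ^ (e i + 1)) := by
          gcongr
          exact P.lE i
      _ = H * Real.log H ^ (1 + κ₁ * (e i + 1)) := by rw [← pow_mul, pow_add, pow_one]; ring
      _ ≤ H * Real.log H ^ κ := by
          gcongr
          exact hkap i
  · intro i p hp hpL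
    have hpL' : p ∣ M / g i * (g₀ * q') ^ e i := hpL
    rcases (Nat.Prime.dvd_mul hp).1 hpL' with h | h
    · exact Or.inl (h.trans (Nat.div_dvd_of_dvd (P.hg i).1))
    · exact Or.inr (hp.dvd_of_dvd_pow h)
  · intro i t ht
    apply coprime_of
    intro p hp hpr hpL
    have hpL' : p ∣ M / g i * (g₀ * q') ^ e i := Int.natCast_dvd_natCast.1 hpL
    by_cases hpM : p ∣ M
    · exact (r_dat (H := H) P hρ i t).2 p hp hpM hpr
    · rcases (Nat.Prime.dvd_mul hp).1 hpL' with h | h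
      · exact hpM (h.trans (Nat.div_dvd_of_dvd (P.hg i).1))
      · have he : 1 ≤ e i := by
          by_contra hcon
          have : e i = 0 := by omega
          rw [this, pow_zero] at h
          exact hp.one_lt.ne' (Nat.dvd_one.1 h)
        have h1 := hp.dvd_of_dvd_pow h
        have h2 : p ∣ q' := by
          rcases (Nat.Prime.dvd_mul hp).1 h1 with h3 | h3
          · exact absurd (h3.trans P.hg₀) hpM
          · exact h3
        have h3 : p = q' := (Nat.prime_dvd_prime_iff_eq hp P.hq').1 h2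
        subst h3
        have h4 := (r_dat (H := H) P hρ i t).1
        have h5 : (p : ℤ) ∣ fm (ρ i) ((g₀ * p : ℕ) : ℤ) (y₀ + M * t) := by
          rw [← h4]
          exact hpr.mul_left _
        have h6 := fm_last (p : ℤ) (ρ i) ((g₀ * p : ℕ) : ℤ) (y₀ + M * t)
          (by push_cast; exact dvd_mul_left _ _)
        have h7 : (p : ℤ) ∣ ρ i (Fin.last (e i + 1)) * (y₀ + M * t) ^ (e i + 1) := by
          have := dvd_sub h5 h6
          simpa using this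
        have hpp := Nat.prime_iff_prime_int.1 hp
        rcases hpp.dvd_or_dvd h7 with h8 | h8
        · exact hgood i he h8
        · have h9 := hpp.dvd_of_dvd_pow h8
          have h10 : t ∈ (dat e M g₀ p y₀ T s g γ ρ H).ts := ht
          unfold Data.ts at h10
          rw [mem_filter] at h10
          exact h10.2 h9
  · intro i
    have h1 := in_lem H M P.h2 P.hM (γ i 0) (P.lγ i 0)
    have h2 := in_lem H M P.h2 P.hM (γ i 1) (P.lγ i 1)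
    exact ⟨h1.1, h1.2.1, h1.2.2, h2.1, h2.2.1, h2.2.2⟩
  · intro i
    have hMr : (0 : ℝ) < M := by exact_mod_cast P.hM
    have h1 := (box_len H M P.hM (γ i 0)).1
    have h2 := (box_len H M P.hM (γ i 1)).1
    have h3 : (H : ℝ) / Real.log H ≤ ((2 * H : ℕ) : ℝ) / M - 2 := by
      have h4 : (H : ℝ) / Real.log H ≤ H / M := by
        apply div_le_div_of_nonneg_left (by positivity) hMr P.lM
      have h5 : ((2 * M : ℕ) : ℝ) ≤ H := by exact_mod_cast P.lH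
      have h6 : (2 : ℝ) ≤ H / M := by
        rw [le_div_iff₀ hMr]
        push_cast at h5
        exact h5
      have h7 : ((2 * H : ℕ) : ℝ) / M = H / M + H / M := by
        push_cast
        ring
      rw [h7]
      linarith
    exact ⟨h3.trans h1, h3.trans h2⟩

end

end Pool.Agent.N364.DC
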