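import Pool.Agent.N364.DC.AmtB

set_option autoImplicit false

/-! Project DC, part AMT: counting. -/

namespace Pool.Agent.N364.DC

open Finset Pool.Agent.N718.DC

section

variable {m : ℕ} {e : Fin m → ℕ} {W M g₀ q' : ℕ} {y₀ : ℤ} {T : ℕ} {s : Fin m → ℤ}
    {g : Fin m → ℕ} {γ : (i : Fin m) → Fin (e i + 2) → ℤ} {H κ₁ : ℕ} {a₀ a₁ : ℤ} {α β : ℝ}

/-- the families which are counted -/
def Ctd (e : Fin m → ℕ) (M : ℕ) (a₀ a₁ : ℤ) (α β : ℝ) (γ : (i : Fin m) → Fin (e i + 2) → ℤ)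
    (g : Fin m → ℕ) (s : Fin m → ℤ) (ε : Fin m → Fin m → ℤ)
    (c : (i : Fin m) → Fin (e i + 2) → ℤ) : Prop :=
  (∀ i j, (M : ℤ) ∣ c i j - γ i j) ∧
      (∀ i, ∀ z : ℝ, α < z → z < β → 0 < (s i : ℝ) * fmv (c i) 1 z) ∧
      ¬ ∃ x y : ℤ, 0 < x ∧ (M : ℤ) ∣ x - a₀ ∧ (M : ℤ) ∣ y - a₁ ∧ α * x < y ∧ (y : ℝ) < β * x ∧
        ∃ P : Fin m → ℕ, (∀ i, (P i).Prime ∧ s i * fm (c i) x y = g i * P i) ∧
          ∀ i j, i < j → jacobiSym (P i) (P j) = ε i j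

/-- the first two coefficients are replaced -/
def phi (γ c : (i : Fin m) → Fin (e i + 2) → ℤ) : (i : Fin m) → Fin (e i + 2) → ℤ :=
  fun i j => if (j : ℕ) < 2 then γ i j else c i j

/-- the varying part of the first two coefficients -/
def bb (M : ℕ) (γ c : (i : Fin m) → Fin (e i + 2) → ℤ) : Fin m → ℤ × ℤ :=
  fun i => ((c i 0 - γ i 0) / M, (c i 1 - γ i 1) / M)

open Classical in
/-- the exceptional set of the one-dimensional family -/
noncomputable def Exc (D : Data m) (ε : Fin m → Fin m → ℤ) : Finset (Fin m → ℤ × ℤ) :=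
  D.box.filter (fun b => (∀ i, ∀ t ∈ D.ts, 0 < D.val i t (b i)) ∧
    ¬ ∃ t ∈ D.ts, (∀ i, (D.val i t (b i)).natAbs.Prime) ∧
      ∀ i j, i < j → jacobiSym (D.val i t (b i)) (D.val j t (b j)).natAbs = ε i j)

theorem bb_mem_box (hM : 1 ≤ M) {ρ c : (i : Fin m) → Fin (e i + 2) → ℤ} (hc : c ∈ BX e H)
    (h : ∀ i j, (M : ℤ) ∣ c i j - γ i j) :
    bb M γ c ∈ (dat e M g₀ q' y₀ T s g γ ρ H).box := by
  unfold Data.box
  rw [Fintype.mem_piFinset]
  intro i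
  unfold BX at hc
  rw [Fintype.mem_piFinset] at hc
  have hci := Fintype.mem_piFinset.1 (hc i)
  have hM' : (0 : ℤ) < M := by exact_mod_cast hM
  have key : ∀ j : Fin (e i + 2), -(((H : ℤ) + γ i j) / M) ≤ (c i j - γ i j) / M ∧
      (c i j - γ i j) / M ≤ ((H : ℤ) - γ i j) / M := by
    intro j
    obtain ⟨k, hk⟩ := h i j
    have h1 := mem_Icc.1 (hci j)
    rw [hk, Int.mul_ediv_cancel_left _ hM'.ne']
    constructor
    · rw [neg_le, Int.le_ediv_iff_mul_le hM']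
      linarith
    · rw [Int.le_ediv_iff_mul_le hM']
      linarith
  unfold bx
  rw [mem_product, mem_Icc, mem_Icc]
  exact ⟨key 0, key 1⟩

theorem bb_eq (_hM : 1 ≤ M) {c : (i : Fin m) → Fin (e i + 2) → ℤ}
    (h : ∀ i j, (M : ℤ) ∣ c i j - γ i j) (i : Fin m) :
    c i 0 = γ i 0 + M * (bb M γ c i).1 ∧ c i 1 = γ i 1 + M * (bb M γ c i).2 := by
  have h0 := Int.mul_ediv_cancel' (h i 0)
  have h1 := Int.mul_ediv_cancel' (h i 1)
  constructor
  · show c i 0 = γ i 0 + M * ((c i 0 - γ i 0) / M)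
    rw [h0]
    ring
  · show c i 1 = γ i 1 + M * ((c i 1 - γ i 1) / M)
    rw [h1]
    ring

theorem bb_mem (P : Par e W M g₀ q' y₀ T s g γ H κ₁ a₀ a₁ α β) (ε : Fin m → Fin m → ℤ)
    {ρ c : (i : Fin m) → Fin (e i + 2) → ℤ} (hρ : ∀ i j, (M : ℤ) ∣ ρ i j - γ i j)
    (hc : c ∈ BX e H) (h : Ctd e M a₀ a₁ α β γ g s ε c) (hphi : phi γ c = ρ) :
    bb M γ c ∈ Exc (dat e M g₀ q' y₀ T s g γ ρ H) ε := by
  obtain ⟨h1, h2, h3⟩ := h
  unfold Exc
  rw [mem_filter]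
  refine ⟨bb_mem_box P.hM hc h1, ?_⟩
  have hq0 : 0 < g₀ * q' :=
    Nat.mul_pos (Nat.pos_of_dvd_of_pos P.hg₀ P.hM) P.hq'.pos
  have hq0' : (0 : ℝ) < ((g₀ * q' : ℕ) : ℝ) := by exact_mod_cast hq0
  have hval : ∀ i t, (g i : ℤ) * (dat e M g₀ q' y₀ T s g γ ρ H).val i t (bb M γ c i) =
      s i * fm (c i) ((g₀ * q' : ℕ) : ℤ) (y₀ + M * t) := by
    intro i t
    have hb := bb_eq P.hM h1 i
    have hr0 : ρ i 0 = γ i 0 := by
      rw [← hphi]
      simp [phi]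
    have hr1 : ρ i 1 = γ i 1 := by
      rw [← hphi]
      simp [phi]
    refine gval P hρ i t _ (c i) (by rw [hr0]; exact hb.1) (by rw [hr1]; exact hb.2) ?_
    intro j hj
    rw [← hphi]
    simp [phi, not_lt.2 hj]
  have hgpos : ∀ i, (0 : ℤ) < g i := fun i => by
    exact_mod_cast Nat.pos_of_dvd_of_pos (P.hg i).1 P.hM
  have hts : ∀ t ∈ (dat e M g₀ q' y₀ T s g γ ρ H).ts, t < T := by
    intro t ht
    unfold Data.ts at ht
    exact mem_range.1 (mem_filter.1 ht).1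
  have hpos : ∀ i, ∀ t ∈ (dat e M g₀ q' y₀ T s g γ ρ H).ts,
      0 < (dat e M g₀ q' y₀ T s g γ ρ H).val i t (bb M γ c i) := by
    intro i t ht
    have hab := P.hab t (hts t ht)
    have h4 := h2 i (((y₀ + M * t : ℤ) : ℝ) / ((g₀ * q' : ℕ) : ℝ))
      (by rw [lt_div_iff₀ hq0']; exact hab.1) (by rw [div_lt_iff₀ hq0']; exact hab.2)
    have h5 : (((s i * fm (c i) ((g₀ * q' : ℕ) : ℤ) (y₀ + M * t) : ℤ)) : ℝ) =
        ((g₀ * q' : ℕ) : ℝ) ^ (e i + 1) *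
          ((s i : ℝ) * fmv (c i) 1 (((y₀ + M * t : ℤ) : ℝ) / ((g₀ * q' : ℕ) : ℝ))) := by
      rw [Int.cast_mul, fm_cast]
      unfold fmv
      rw [fm_scale _ _ _ (by rw [Int.cast_natCast]; exact hq0'.ne'), Int.cast_natCast]
      ring
    have h6 : (0 : ℝ) < (((s i * fm (c i) ((g₀ * q' : ℕ) : ℤ) (y₀ + M * t) : ℤ)) : ℝ) := by
      rw [h5]
      exact mul_pos (pow_pos hq0' _) h4
    have h7 : 0 < s i * fm (c i) ((g₀ * q' : ℕ) : ℤ) (y₀ + M * t) := by exact_mod_cast h6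
    rw [← hval i t] at h7
    exact pos_of_mul_pos_right h7 (hgpos i).le
  refine ⟨hpos, ?_⟩
  rintro ⟨t, ht, hp1, hp2⟩
  apply h3
  have hab := P.hab t (hts t ht)
  have hcast : ∀ i, (((dat e M g₀ q' y₀ T s g γ ρ H).val i t (bb M γ c i)).natAbs : ℤ) =
      (dat e M g₀ q' y₀ T s g γ ρ H).val i t (bb M γ c i) := fun i =>
    Int.natAbs_of_nonneg (hpos i t ht).le
  refine ⟨((g₀ * q' : ℕ) : ℤ), y₀ + M * t, by exact_mod_cast hq0, P.hx, ?_, ?_, ?_,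
    fun i => ((dat e M g₀ q' y₀ T s g γ ρ H).val i t (bb M γ c i)).natAbs, ?_, ?_⟩
  · have hd := dvd_add P.hy₀ (dvd_mul_right (M : ℤ) t)
    have e1 : y₀ + M * t - a₁ = y₀ - a₁ + M * t := by ring
    rw [e1]
    exact hd
  · rw [Int.cast_natCast]
    exact hab.1
  · rw [Int.cast_natCast]
    exact hab.2
  · intro i
    refine ⟨hp1 i, ?_⟩
    rw [hcast i]
    exact (hval i t).symm
  · intro i j hij
    have := hp2 i j hij
    simp only [hcast]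
    exact this

open Classical in
theorem fiber_le (P : Par e W M g₀ q' y₀ T s g γ H κ₁ a₀ a₁ α β) (ε : Fin m → Fin m → ℤ)
    {ρ : (i : Fin m) → Fin (e i + 2) → ℤ} (hρ : ∀ i j, (M : ℤ) ∣ ρ i j - γ i j)
    (S : Finset ((i : Fin m) → Fin (e i + 2) → ℤ))
    (hS : ∀ c ∈ S, c ∈ BX e H ∧ Ctd e M a₀ a₁ α β γ g s ε c) :
    (S.filter (fun c => phi γ c = ρ)).card ≤ (Exc (dat e M g₀ q' y₀ T s g γ ρ H) ε).card := by
  apply card_le_card_of_injOn (bb M γ)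
  · intro c hc
    have hc' := mem_filter.1 (mem_coe.1 hc)
    exact mem_coe.2 (bb_mem P ε hρ (hS c hc'.1).1 (hS c hc'.1).2 hc'.2)
  · intro c hc c' hc' heq
    have hc1 := mem_filter.1 (mem_coe.1 hc)
    have hc2 := mem_filter.1 (mem_coe.1 hc')
    funext i j
    by_cases hj : (j : ℕ) < 2
    · have hb := bb_eq P.hM (hS c hc1.1).2.1 i
      have hb' := bb_eq P.hM (hS c' hc2.1).2.1 i
      rw [heq] at hb
      have h0 : c i 0 = c' i 0 := hb.1.trans hb'.1.symm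
      have h1 : c i 1 = c' i 1 := hb.2.trans hb'.2.symm
      have hj2 : j = 0 ∨ j = 1 := by
        have : (j : ℕ) = 0 ∨ (j : ℕ) = 1 := by omega
        rcases this with h | h
        · left
          exact Fin.ext h
        · right
          apply Fin.ext
          rw [h]
          simp
      rcases hj2 with h | h
      · rw [h]; exact h0
      · rw [h]; exact h1
    · have e1 : phi γ c i j = phi γ c' i j := by rw [hc1.2, hc2.2]
      simpa [phi, hj] using e1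

/-! ### products -/

theorem prod_pi {e : ℕ} (f : Fin (e + 2) → ℝ) : ∏ j, f j = f 0 * (f 1 * ∏ j : Fin e, f j.succ.succ) := by
  rw [Fin.prod_univ_succ, Fin.prod_univ_succ]
  rfl

/-- the rests -/
noncomputable def RR (e : Fin m → ℕ) (M : ℕ) (γ : (i : Fin m) → Fin (e i + 2) → ℤ) (H : ℕ) :
    Finset ((i : Fin m) → Fin (e i + 2) → ℤ) :=
  Fintype.piFinset (fun i => Fintype.piFinset (fun j : Fin (e i + 2) =>
    if (j : ℕ) < 2 then {γ i j} else (Icc (-(H : ℤ)) H).filter (fun n => (M : ℤ) ∣ n - γ i j)))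

theorem card_RR (hM : 1 ≤ M) (γ : (i : Fin m) → Fin (e i + 2) → ℤ) (H : ℕ) :
    ((RR e M γ H).card : ℝ) ≤ ∏ i, (((2 * H + 1 : ℕ) : ℝ) / M + 1) ^ e i := by
  unfold RR
  rw [Fintype.card_piFinset]
  push_cast
  refine prod_le_prod (fun i _ => by positivity) fun i _ => ?_
  rw [Fintype.card_piFinset]
  push_cast
  rw [prod_pi]
  simp only [Fin.val_zero, Nat.ofNat_pos, ↓reduceIte, card_singleton, Nat.cast_one, one_mul,
    Fin.val_one, Nat.one_lt_ofNat]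
  have h : ∀ j ∈ (univ : Finset (Fin (e i))),
      (((if ((j.succ.succ : Fin (e i + 2)) : ℕ) < 2 then {γ i j.succ.succ} else
        (Icc (-(H : ℤ)) H).filter (fun n => (M : ℤ) ∣ n - γ i j.succ.succ)) : Finset ℤ).card : ℝ) ≤
        ((2 * H + 1 : ℕ) : ℝ) / M + 1 := by
    intro j _
    have hj : ¬ ((j.succ.succ : Fin (e i + 2)) : ℕ) < 2 := by simp
    rw [if_neg hj]
    exact cnt H M hM _
  have h2 := prod_le_prod (fun j _ => by positivity) h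
  rw [prod_const, card_univ, Fintype.card_fin] at h2
  push_cast at h2
  exact h2

theorem vol_le (P : Par e W M g₀ q' y₀ T s g γ H κ₁ a₀ a₁ α β)
    (ρ : (i : Fin m) → Fin (e i + 2) → ℤ) :
    0 ≤ (dat e M g₀ q' y₀ T s g γ ρ H).vol ∧
    (dat e M g₀ q' y₀ T s g γ ρ H).vol ≤ ∏ _i : Fin m, (((2 * H + 1 : ℕ) : ℝ) / M + 1) ^ 2 := by
  have hMr : (0 : ℝ) < M := by exact_mod_cast P.hM
  have key : ∀ c : ℤ, |c| ≤ H →
      0 ≤ ((((H : ℤ) - c) / M : ℤ) : ℝ) - ((-(((H : ℤ) + c) / M) : ℤ) : ℝ) + 1 ∧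
      ((((H : ℤ) - c) / M : ℤ) : ℝ) - ((-(((H : ℤ) + c) / M) : ℤ) : ℝ) + 1 ≤
        ((2 * H + 1 : ℕ) : ℝ) / M + 1 := by
    intro c hc
    have h1 := (box_len H M P.hM c).2
    have h2 := (in_lem H M P.h2 P.hM c hc).2.1
    constructor
    · have h3 : ((-(((H : ℤ) + c) / M) : ℤ) : ℝ) ≤ ((((H : ℤ) - c) / M : ℤ) : ℝ) + 1 := by
        exact_mod_cast h2
      linarith
    · have h3 : ((2 * H : ℕ) : ℝ) / M ≤ ((2 * H + 1 : ℕ) : ℝ) / M := by
        gcongr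
        omega
      linarith
  have hi : ∀ i : Fin m, 0 ≤ ar ((dat e M g₀ q' y₀ T s g γ ρ H).u i)
      ((dat e M g₀ q' y₀ T s g γ ρ H).v i) ∧ ar ((dat e M g₀ q' y₀ T s g γ ρ H).u i)
      ((dat e M g₀ q' y₀ T s g γ ρ H).v i) ≤ (((2 * H + 1 : ℕ) : ℝ) / M + 1) ^ 2 := by
    intro i
    have h0 := key (γ i 0) (P.lγ i 0)
    have h1 := key (γ i 1) (P.lγ i 1)
    unfold ar
    refine ⟨mul_nonneg h0.1 h1.1, ?_⟩
    rw [sq]
    exact mul_le_mul h0.2 h1.2 h1.1 (by positivity)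
  exact ⟨prod_nonneg fun i _ => (hi i).1, prod_le_prod (fun i _ => (hi i).1) fun i _ => (hi i).2⟩

end

end Pool.Agent.N364.DC
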